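import Pool.Agent.P.MP_3dfad8_al.Poly

/-! The degree argument for the power map. -/

namespace Pool.Agent.P.MP_3dfad8_al

open Finset
open scoped commutatorElement

theorem sum_eval_zero (p : ℕ) [Fact p.Prime] (q : Polynomial (ZMod p)) (hq : q.natDegree < p - 1) :
    ∑ t : ZMod p, q.eval t = 0 := by
  simp_rw [Polynomial.eval_eq_sum_range]
  rw [sum_comm]
  refine sum_eq_zero fun i hi => ?_
  rw [← mul_sum, FiniteField.sum_pow_lt_card_sub_one, mul_zero]
  rw [ZMod.card]
  have := mem_range.mp hi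
  omega

theorem sum_weight (p : ℕ) [hp : Fact p.Prime] (a b : ℕ) (h : a + 1 + (b + 1) < p) :
    ∑ t : ZMod p, t ^ (p - 2) *
      ((t.val.choose (b + 1) : ZMod p) * (t.val.choose (a + 1) : ZMod p)) = 0 := by
  have hu : ∀ n, n < p → ((n.factorial : ℕ) : ZMod p) ≠ 0 := fun n hn h0 => by
    rw [ZMod.natCast_eq_zero_iff, hp.out.dvd_factorial] at h0
    omega
  have hc : ∀ (t : ZMod p) (n : ℕ), (((n + 1).factorial : ℕ) : ZMod p) *
      (t.val.choose (n + 1) : ZMod p) =
      t * ((descPochhammer (ZMod p) n).comp (Polynomial.X - 1)).eval t := fun t n => by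
    rw [← Nat.cast_mul, ← Nat.descFactorial_eq_factorial_mul_choose,
      ← descPochhammer_eval_eq_descFactorial, descPochhammer_succ_left, ZMod.natCast_zmod_val,
      Polynomial.eval_mul, Polynomial.eval_X]
  have hd : ∀ n, ((descPochhammer (ZMod p) n).comp (Polynomial.X - 1)).natDegree ≤ n := fun n => by
    refine Polynomial.natDegree_comp_le.trans ?_
    rw [descPochhammer_natDegree, ← Polynomial.C_1, Polynomial.natDegree_X_sub_C, mul_one]
  refine (mul_eq_zero.mp ?_).resolve_left
    (mul_ne_zero (hu (b + 1) (by omega)) (hu (a + 1) (by omega)))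
  rw [mul_sum, ← sum_eval_zero p (Polynomial.X *
    ((descPochhammer (ZMod p) b).comp (Polynomial.X - 1) *
      (descPochhammer (ZMod p) a).comp (Polynomial.X - 1)))]
  · refine sum_congr rfl fun t _ => ?_
    have h1 : t ^ (p - 2) * t * t = t := by
      rw [← pow_succ, ← pow_succ, show p - 2 + 1 + 1 = p by omega, ZMod.pow_card]
    rw [Polynomial.eval_mul, Polynomial.eval_mul, Polynomial.eval_X]
    linear_combination (t ^ (p - 2) * (((a + 1).factorial : ℕ) : ZMod p) *
      (t.val.choose (a + 1) : ZMod p)) * hc t b + (t ^ (p - 2) * (t *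
        ((descPochhammer (ZMod p) b).comp (Polynomial.X - 1)).eval t)) * hc t a +
      (((descPochhammer (ZMod p) b).comp (Polynomial.X - 1)).eval t *
        ((descPochhammer (ZMod p) a).comp (Polynomial.X - 1)).eval t) * h1
  · refine lt_of_le_of_lt (Polynomial.natDegree_mul_le.trans (add_le_add Polynomial.natDegree_X_le
      (Polynomial.natDegree_mul_le.trans (add_le_add (hd b) (hd a))))) ?_
    omega

theorem two_var {M : Type*} [AddCommGroup M] (p : ℕ) [hp : Fact p.Prime] (hM : ∀ m : M, p • m = 0)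
    (c : ℕ → ℕ → M) (d : M) (h0 : ∀ b, c 0 (b + 1) = 0)
    (h1 : ∀ a b, p ≤ a + (b + 1) → c a (b + 1) = 0)
    (h2 : ∀ t < p, t • d = ∑ b ∈ range p, t.choose (b + 1) • ∑ a ∈ range p,
      t.choose a • c a (b + 1)) : d = 0 := by
  have : NeZero p := ⟨hp.out.ne_zero⟩
  let : Module (ZMod p) M := AddCommGroup.zmodModule hM
  have h2p := hp.out.two_le
  have e1 : ∑ t : ZMod p, t ^ (p - 2) • (t.val • d) = 0 := by
    have : ∀ t : ZMod p, t ^ (p - 2) • (t.val • d) = ∑ b ∈ range p, ∑ a ∈ range p,
        (t ^ (p - 2) * ((t.val.choose (b + 1) : ZMod p) * (t.val.choose a : ZMod p))) •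
          c a (b + 1) := fun t => by
      rw [h2 t.val (ZMod.val_lt t), smul_sum]
      refine sum_congr rfl fun b _ => ?_
      rw [smul_sum, smul_sum]
      refine sum_congr rfl fun a _ => ?_
      rw [mul_smul, mul_smul, Nat.cast_smul_eq_nsmul, Nat.cast_smul_eq_nsmul]
    rw [sum_congr rfl fun t _ => this t, sum_comm]
    refine sum_eq_zero fun b _ => ?_
    rw [sum_comm]
    refine sum_eq_zero fun a _ => ?_
    rw [← sum_smul]
    rcases a with _ | a
    · rw [h0, smul_zero]
    by_cases hab : p ≤ a + 1 + (b + 1)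
    · rw [h1 _ _ hab, smul_zero]
    · rw [sum_weight p a b (by omega), zero_smul]
  have e2 : ∑ t : ZMod p, t ^ (p - 2) * t = -1 := by
    have : ∀ t : ZMod p, t ^ (p - 2) * t = 1 - if t = 0 then 1 else 0 := fun t => by
      split_ifs with ht
      · simp [ht]
      · rw [← pow_succ, show p - 2 + 1 = p - 1 by omega, ZMod.pow_card_sub_one_eq_one ht, sub_zero]
    rw [sum_congr rfl fun t _ => this t, sum_sub_distrib]
    simp
  have e3 : ∀ t : ZMod p, t ^ (p - 2) • (t.val • d) = (t ^ (p - 2) * t) • d := fun t => by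
    rw [mul_smul, ← Nat.cast_smul_eq_nsmul (ZMod p) t.val d, ZMod.natCast_zmod_val]
  rw [sum_congr rfl fun t _ => e3 t, ← sum_smul, e2, neg_smul, one_smul, neg_eq_zero] at e1
  exact e1

/-- Iterated additive differences along a list of weighted directions. -/
def ader {G M : Type*} [Group G] [AddCommGroup M] : List (G × ℕ) → (G → M) → G → M
  | [], f => f
  | e :: l, f => ader l fun x => f (x * e.1) - f x

theorem der_eq {G A : Type*} [Group G] [CommGroup A] (ι : A →* G) (l : List (G × ℕ)) :
    ∀ F : G → Additive A, der l (fun x => ι (F x).toMul) = fun x => ι (ader l F x).toMul := by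
  induction l with
  | nil => intro F; rfl
  | cons e l ih =>
    intro F
    rw [der, ader, ← ih]
    congr 1
    funext x
    rw [toMul_sub, div_eq_mul_inv, mul_comm, map_mul, map_inv]

theorem ader_append {G M : Type*} [Group G] [AddCommGroup M] (l₁ l₂ : List (G × ℕ)) :
    ∀ F : G → M, ader (l₁ ++ l₂) F = ader l₂ (ader l₁ F) := by
  induction l₁ with
  | nil => intro F; rfl
  | cons e l ih => intro F; rw [List.cons_append, ader, ader, ih]

theorem ader_van {G M : Type*} [Group G] [AddCommGroup M] (V : Set G) (l : List (G × ℕ))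
    (hl : ∀ e ∈ l, ∀ x ∈ V, x * e.1 ∈ V) :
    ∀ F : G → M, (∀ x ∈ V, F x = 0) → ∀ x ∈ V, ader l F x = 0 := by
  induction l with
  | nil => intro F hF; exact hF
  | cons e l ih =>
    intro F hF
    refine ih (fun e' he' => hl e' (List.mem_cons_of_mem _ he')) _ fun x hx => ?_
    rw [hF x hx, hF _ (hl e List.mem_cons_self x hx), sub_zero]

theorem ader_free {G M : Type*} [Group G] [AddCommGroup M] (l : List G) (x : G) :
    ∀ F : G → M, (∀ s : List G, s.Sublist l → s ≠ [] → F (x * s.reverse.prod) = 0) →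
      ader (l.map fun a => (a, 1)) F x = 0 → F x = 0 := by
  induction l with
  | nil => intro F _ h; exact h
  | cons e l ih =>
    intro F hF h
    have h1 := ih _ (fun s hs hne => by
      have h2 := hF (e :: s) (hs.cons_cons e) (List.cons_ne_nil _ _)
      rw [List.reverse_cons, List.prod_append, List.prod_singleton, ← mul_assoc] at h2
      simp only
      rw [h2, hF s (hs.cons e) hne, sub_zero]) h
    have h3 := hF [e] ((List.nil_sublist l).cons_cons e) (List.cons_ne_nil _ _)
    simp only [List.reverse_singleton, List.prod_singleton] at h3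
    simp only [h3, zero_sub, neg_eq_zero] at h1
    exact h1

theorem ader_rep {G M : Type*} [Group G] [AddCommGroup M] (v : G) (j : ℕ) (x : G) (k : ℕ) :
    ∀ F : G → M, ader (List.replicate k (v, j)) F x =
      (fwdDiff 1)^[k] (fun n : ℕ => F (x * v ^ n)) 0 := by
  induction k with
  | zero => intro F; simp [ader]
  | succ k ih =>
    intro F
    rw [List.replicate_succ, ader, ih, Function.iterate_succ_apply]
    have : (fun n : ℕ => F (x * v ^ n * v) - F (x * v ^ n)) =
        fwdDiff 1 (fun n : ℕ => F (x * v ^ n)) := by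
      funext n
      simp only [fwdDiff, pow_succ, mul_assoc]
    exact congrArg (fun g => (fwdDiff 1)^[k] g 0) this

theorem newton {G M : Type*} [Group G] [AddCommGroup M] (F : G → M) (v : G) (j : ℕ) (x : G)
    {t N : ℕ} (ht : t < N) :
    F (x * v ^ t) = ∑ k ∈ range N, t.choose k • ader (List.replicate k (v, j)) F x := by
  have := shift_eq_sum_fwdDiff_iter (1 : ℕ) (fun n : ℕ => F (x * v ^ n)) t 0
  simp only [zero_add, smul_eq_mul, mul_one] at this
  rw [this]
  simp_rw [ader_rep]
  refine sum_subset (range_mono ht) fun k _ hk => ?_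
  rw [Nat.choose_eq_zero_of_lt (by simpa using hk), zero_smul]

theorem mul_pow_mod {G : Type*} [Group G] {j : ℕ} (u v : G) (hv : v ∈ lcs G j) (t : ℕ) :
    (u ^ t * v ^ t)⁻¹ * (u * v) ^ t ∈ lcs G (j + 1) := by
  rw [← QuotientGroup.eq]
  have hc : Commute (u : G ⧸ lcs G (j + 1)) (v : G ⧸ lcs G (j + 1)) := by
    have h1 : ⁅v⁻¹, u⁻¹⁆ ∈ lcs G (j + 1) :=
      (lcs_ns G).comm j 1 _ _ ((lcs G j).inv_mem hv) (Subgroup.mem_top _)
    rw [commute_iff_eq, ← QuotientGroup.mk_mul, ← QuotientGroup.mk_mul, QuotientGroup.eq]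
    convert h1 using 1
    rw [commutatorElement_def]
    group
  rw [QuotientGroup.mk_mul, QuotientGroup.mk_pow, QuotientGroup.mk_pow, QuotientGroup.mk_pow,
    QuotientGroup.mk_mul, hc.mul_pow]

theorem down (Q : ℕ → Prop) (m N : ℕ) (h1 : ∀ j, N ≤ j → Q j)
    (h2 : ∀ j, m ≤ j → Q (j + 1) → Q j) (j : ℕ) (hj : m ≤ j) : Q j := by
  have : ∀ i j, m ≤ j → N ≤ j + i → Q j := fun i => by
    induction i with
    | zero => exact fun j _ h => h1 j h
    | succ i ih => exact fun j hj h => h2 j hj (ih (j + 1) (by omega) (by omega))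
  exact this N j hj (Nat.le_add_left N j)

/-- The main step: all `p`-th powers lie in an elementary abelian group, vanish off `B`, and are
trivial when central. -/
theorem core {G A : Type*} [Group G] [CommGroup A] (p : ℕ) [hp : Fact p.Prime] (ι : A →* G)
    (hι : Function.Injective ι) (hA : ∀ a : A, a ^ p = 1) (hP : ∀ x : G, ∃ a, ι a = x ^ p)
    (B : Subgroup G) [hB : B.Normal] (hout : ∀ x, x ∉ B → x ^ p = 1) (la : List G)
    (hla : ∀ s : List G, s.Sublist la → s ≠ [] → s.reverse.prod ∉ B)
    (hc : lcs G (la.length + p + 1) = ⊥)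
    (hz : ∀ x : G, x ^ p ∈ Subgroup.center G → x ^ p = 1) (x : G) : x ^ p = 1 := by
  choose P hP using hP
  obtain ⟨F, hF⟩ : ∃ F : G → Additive A, ∀ x, ι (F x).toMul = x ^ p :=
    ⟨fun x => Additive.ofMul (P x), hP⟩
  have hF0 : ∀ x, F x = 0 ↔ x ^ p = 1 := fun x => by
    rw [← hF x, map_eq_one_iff ι hι, toMul_eq_one]
  have hFt : ∀ x t, F (x ^ t) = t • F x := fun x t => by
    apply Additive.toMul.injective
    apply hι
    rw [hF, toMul_nsmul, map_pow, hF, ← pow_mul, ← pow_mul, mul_comm]
  have hM : ∀ m : Additive A, p • m = 0 := fun m => by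
    apply Additive.toMul.injective
    rw [toMul_nsmul, hA, toMul_zero]
  have hdeg : ∀ l : List (G × ℕ), (∀ e ∈ l, e.1 ∈ lcs G e.2 ⊓ B) →
      p + 1 ≤ (l.map Prod.snd).sum → ader l F 1 = 0 := fun l hl hs => by
    refine ader_free la 1 _ (fun s h1 h2 => ?_) ?_
    · refine ader_van (B : Set G)ᶜ l (fun e he y hy h => hy ?_) F
        (fun y hy => (hF0 y).2 (hout y hy)) _ (by simpa using hla s h1 h2)
      exact (B.mul_mem_cancel_right (hl e he).2).mp h
    · have h1 := der_pow_mem (lcs_ns G) rfl (l ++ la.map fun a => (a, 1)) (fun e he => by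
        rcases List.mem_append.mp he with h | h
        · exact (hl e h).1
        · obtain ⟨a, -, rfl⟩ := List.mem_map.mp h
          exact Subgroup.mem_top _) p 1
      have h2 : (fun y : G => y ^ p) = fun y => ι (F y).toMul := funext fun y => (hF y).symm
      rw [h2, der_eq, ader_append] at h1
      have h3 := (lcs_ns G).anti (show la.length + p + 1 ≤ _ by
        rw [List.map_append, List.sum_append, List.map_map]
        have : (la.map (Prod.snd ∘ fun a => (a, 1))).sum = la.length := by
          simp [Function.comp_def]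
        omega) h1
      rw [hc, Subgroup.mem_bot, map_eq_one_iff ι hι, toMul_eq_one] at h3
      exact h3
  have top : ∀ j, la.length + p + 1 ≤ j → ∀ v ∈ lcs G j ⊓ B, v = 1 := fun j hj v hv => by
    have := (lcs_ns G).anti hj hv.1
    rwa [hc, Subgroup.mem_bot] at this
  have step : ∀ k, 1 ≤ k → (∀ v ∈ lcs G (k + 1) ⊓ B, F v = 0) → ∀ u ∈ lcs G k ⊓ B, F u = 0 := by
    intro k hk ih
    have inner : ∀ j, k + 1 ≤ j → (∀ u ∈ lcs G k ⊓ B, ∀ v ∈ lcs G (j + 1) ⊓ B, F (u * v) = F u) →
        ∀ u ∈ lcs G k ⊓ B, ∀ v ∈ lcs G j ⊓ B, F (u * v) = F u := by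
      intro j hj ih2 u hu v hv
      have hvk : v ∈ lcs G (k + 1) ⊓ B := ⟨(lcs_ns G).anti hj hv.1, hv.2⟩
      have hvk' : v ∈ lcs G k ⊓ B := ⟨(lcs_ns G).anti (Nat.le_succ k) hvk.1, hv.2⟩
      rw [← sub_eq_zero]
      refine two_var p hM (fun a b => ader (List.replicate a (u, k))
        (ader (List.replicate b (v, j)) F) 1) _ (fun b => ?_) (fun a b hab => ?_) fun t ht => ?_
      · refine ader_van (lcs G (k + 1) ⊓ B : Subgroup G) _ (fun e he y hy => ?_) F ih 1
          (Subgroup.one_mem _)
        rw [List.eq_of_mem_replicate he]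
        exact Subgroup.mul_mem _ hy hvk
      · rw [← ader_append]
        refine hdeg _ (fun e he => ?_) ?_
        · rcases List.mem_append.mp he with h | h
          · rw [List.eq_of_mem_replicate h]; exact hv
          · rw [List.eq_of_mem_replicate h]; exact hu
        · simp only [List.map_append, List.map_replicate, List.sum_append, List.sum_replicate,
            smul_eq_mul]
          nlinarith [Nat.mul_le_mul_left a hk, Nat.mul_le_mul_left (b + 1) (show 2 ≤ j by omega)]
      · have hw : u ^ t * v ^ t ∈ lcs G k ⊓ B :=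
          Subgroup.mul_mem _ (Subgroup.pow_mem _ hu t) (Subgroup.pow_mem _ hvk' t)
        have h1 := ih2 _ hw ((u ^ t * v ^ t)⁻¹ * (u * v) ^ t) ⟨mul_pow_mod u v hv.1 t,
          B.mul_mem (B.inv_mem hw.2) (B.pow_mem (B.mul_mem hu.2 hv.2) t)⟩
        rw [mul_inv_cancel_left, hFt, newton F v j (u ^ t) (Nat.lt_succ_of_lt ht),
          sum_range_succ'] at h1
        rw [smul_sub, h1, ← hFt]
        simp only [Nat.choose_zero_right, one_smul, List.replicate_zero, ader, add_sub_cancel_right]
        refine sum_congr rfl fun b _ => ?_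
        rw [← newton _ u k 1 ht, one_mul]
    have all : ∀ j, k + 1 ≤ j → ∀ u ∈ lcs G k ⊓ B, ∀ v ∈ lcs G j ⊓ B, F (u * v) = F u := by
      refine down _ _ (la.length + p + 1) (fun j hj u _ v hv => ?_) inner
      rw [top j hj v hv, mul_one]
    intro u hu
    rw [hF0]
    refine hz u (Subgroup.mem_center_iff.mpr fun g => ?_)
    have h1 : u⁻¹ * (g * u * g⁻¹) ∈ lcs G (k + 1) ⊓ B := by
      refine ⟨?_, B.mul_mem (B.inv_mem hu.2) (hB.conj_mem u hu.2 g)⟩
      have := (lcs_ns G).comm k 1 _ g ((lcs G k).inv_mem hu.1) (Subgroup.mem_top _)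
      have h0 : ⁅u⁻¹, g⁆ = u⁻¹ * (g * u * g⁻¹) := by
        rw [commutatorElement_def]
        group
      rwa [h0] at this
    have h2 := all (k + 1) le_rfl u hu _ h1
    rw [mul_inv_cancel_left] at h2
    have h3 := hF (g * u * g⁻¹)
    rw [h2, hF, conj_pow] at h3
    exact mul_inv_eq_iff_eq_mul.mp h3.symm
  by_cases hx : x ∈ B
  · refine (hF0 x).1 (down (fun k => ∀ u ∈ lcs G k ⊓ B, F u = 0) 1 (la.length + p + 1)
      (fun j hj u hu => ?_) step 1 le_rfl x ⟨Subgroup.mem_top _, hx⟩)
    rw [top j hj u hu, hF0, one_pow]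
  · exact hout x hx

end Pool.Agent.P.MP_3dfad8_al
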