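import Mathlib

/-! Polynomial maps on a filtered group: iterated differences of the power map lie deep in the
lower central series. -/

namespace Pool.Agent.P.MP_3dfad8_al

open scoped commutatorElement

/-- A descending series of subgroups with `⁅S a, S b⁆ ≤ S (a + b)`. -/
structure NS {G : Type*} [Group G] (S : ℕ → Subgroup G) : Prop where
  anti : Antitone S
  comm : ∀ a b x y, x ∈ S a → y ∈ S b → ⁅x, y⁆ ∈ S (a + b)

theorem NS.conj {G : Type*} [Group G] {S : ℕ → Subgroup G} (h : NS S) {a b : ℕ} {x y : G}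
    (hx : x ∈ S a) (hy : y ∈ S b) : x * y * x⁻¹ ∈ S b := by
  have h1 : ⁅x, y⁆ * y ∈ S b :=
    (S b).mul_mem (h.anti (Nat.le_add_left b a) (h.comm a b x y hx hy)) hy
  have h2 : ⁅x, y⁆ * y = x * y * x⁻¹ := by rw [commutatorElement_def]; group
  rwa [h2] at h1

/-- The elements of `S a` whose `T`-difference lies in `S (a + k)`. -/
def edge {G : Type*} [Group G] {S : ℕ → Subgroup G} (h : NS S) (T : G →* G) (k a : ℕ) :
    Subgroup G where
  carrier := {f | f ∈ S a ∧ f⁻¹ * T f ∈ S (a + k)}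
  one_mem' := ⟨(S a).one_mem, by simp⟩
  mul_mem' := by
    rintro f g ⟨hf, hf'⟩ ⟨hg, hg'⟩
    refine ⟨(S a).mul_mem hf hg, ?_⟩
    have h1 := (S (a + k)).mul_mem (h.conj ((S a).inv_mem hg) hf') hg'
    have h2 : g⁻¹ * (f⁻¹ * T f) * g⁻¹⁻¹ * (g⁻¹ * T g) = (f * g)⁻¹ * T (f * g) := by
      rw [map_mul]; group
    rwa [h2] at h1
  inv_mem' := by
    rintro f ⟨hf, hf'⟩
    refine ⟨(S a).inv_mem hf, ?_⟩
    have h1 := h.conj hf ((S (a + k)).inv_mem hf')
    have h2 : f * (f⁻¹ * T f)⁻¹ * f⁻¹ = f⁻¹⁻¹ * T f⁻¹ := by rw [map_inv]; group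
    rwa [h2] at h1

theorem edge_ns {G : Type*} [Group G] {S : ℕ → Subgroup G} (h : NS S) (T : G →* G) (k : ℕ) :
    NS (edge h T k) where
  anti := fun a b hab f hf => ⟨h.anti hab hf.1, h.anti (Nat.add_le_add_right hab k) hf.2⟩
  comm := by
    rintro a b f g ⟨hf, hf'⟩ ⟨hg, hg'⟩
    refine ⟨h.comm a b f g hf hg, ?_⟩
    obtain ⟨f', hF⟩ : ∃ f', f' = f⁻¹ * T f := ⟨_, rfl⟩
    obtain ⟨g', hG⟩ : ∃ g', g' = g⁻¹ * T g := ⟨_, rfl⟩
    rw [← hF] at hf'
    rw [← hG] at hg'
    have e1 : T f = f * f' := by rw [hF]; group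
    have e2 : T g = g * g' := by rw [hG]; group
    have hgg : g * g' ∈ S b := (S b).mul_mem hg (h.anti (Nat.le_add_right b k) hg')
    have c1 : ⁅f', g * g'⁆ ∈ S (a + b + k) := by
      have := h.comm _ _ _ _ hf' hgg
      rwa [show a + k + b = a + b + k by ring] at this
    have c2 : ⁅f, g'⁆ ∈ S (a + b + k) := by
      have := h.comm _ _ _ _ hf hg'
      rwa [← add_assoc] at this
    have h1 := (S (a + b + k)).mul_mem
      (h.conj ((S (a + b)).inv_mem (h.comm a b f g hf hg)) (h.conj hf c1)) (h.conj hg c2)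
    have h2 : ⁅f, g⁆⁻¹ * (f * ⁅f', g * g'⁆ * f⁻¹) * ⁅f, g⁆⁻¹⁻¹ * (g * ⁅f, g'⁆ * g⁻¹) =
        ⁅f, g⁆⁻¹ * T ⁅f, g⁆ := by
      rw [map_commutatorElement, e1, e2]
      simp only [commutatorElement_def]
      group
    rwa [h2] at h1

/-- Iterated multiplicative differences along a list of weighted directions. -/
def der {G : Type*} [Group G] : List (G × ℕ) → (G → G) → G → G
  | [], f => f
  | e :: l, f => der l fun x => (f x)⁻¹ * f (x * e.1)

/-- Right translation of functions. -/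
def tr {G : Type*} [Group G] (w : G) : (G → G) →* (G → G) where
  toFun f := fun x => f (x * w)
  map_one' := rfl
  map_mul' _ _ := rfl

theorem exists_series {G : Type*} [Group G] {Γ : ℕ → Subgroup G} (hΓ : NS Γ) (h0 : Γ 0 = ⊤)
    (l : List (G × ℕ)) :
    ∃ S : ℕ → Subgroup (G → G), NS S ∧
      (∀ a f, f ∈ S a → ∀ x, der l f x ∈ Γ (a + (l.map Prod.snd).sum)) ∧
      (∀ a w, w ∈ Γ a → (fun _ => w) ∈ S a) ∧
      ((∀ e ∈ l, e.1 ∈ Γ e.2) → (fun x => x) ∈ S 0) := by
  induction l with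
  | nil =>
    refine ⟨fun a => Subgroup.pi Set.univ fun _ => Γ a, ⟨?_, ?_⟩, ?_, ?_, ?_⟩
    · intro a b hab f hf x hx
      exact hΓ.anti hab (hf x hx)
    · intro a b f g hf hg x hx
      exact hΓ.comm a b _ _ (hf x hx) (hg x hx)
    · intro a f hf x
      simpa [der] using hf x trivial
    · intro a w hw x _
      exact hw
    · intro _ x _
      simp [h0]
  | cons e l ih =>
    obtain ⟨S, hS, h1, h2, h3⟩ := ih
    refine ⟨edge hS (tr e.1) e.2, edge_ns hS _ _, ?_, ?_, ?_⟩
    · intro a f hf x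
      have := h1 _ _ hf.2 x
      rw [List.map_cons, List.sum_cons, ← add_assoc]
      exact this
    · intro a w hw
      refine ⟨h2 a w hw, ?_⟩
      have : (fun _ : G => w)⁻¹ * tr e.1 (fun _ => w) = 1 := by
        funext x
        simp [tr]
      rw [this]
      exact Subgroup.one_mem _
    · intro hl
      refine ⟨h3 fun e' he' => hl e' (List.mem_cons_of_mem _ he'), ?_⟩
      have : (fun x : G => x)⁻¹ * tr e.1 (fun x => x) = fun _ => e.1 := by
        funext x
        simp [tr]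
      rw [this, zero_add]
      exact h2 _ _ (hl e List.mem_cons_self)

theorem der_pow_mem {G : Type*} [Group G] {Γ : ℕ → Subgroup G} (hΓ : NS Γ) (h0 : Γ 0 = ⊤)
    (l : List (G × ℕ)) (hl : ∀ e ∈ l, e.1 ∈ Γ e.2) (p : ℕ) (x : G) :
    der l (fun y => y ^ p) x ∈ Γ (l.map Prod.snd).sum := by
  obtain ⟨S, -, h1, -, h3⟩ := exists_series hΓ h0 l
  have := h1 0 _ ((S 0).pow_mem (h3 hl) p) x
  rwa [zero_add] at this

/-- The lower central series, numbered from `1`. -/
def lcs (G : Type*) [Group G] (a : ℕ) : Subgroup G := (⊤ : Subgroup G).lowerCentralSeries (a - 1)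

instance (G : Type*) [Group G] (a : ℕ) : (lcs G a).Normal := by
  unfold lcs
  infer_instance

theorem three {G : Type*} [Group G] (A B C N : Subgroup G) [N.Normal] (h1 : ⁅⁅B, C⁆, A⁆ ≤ N)
    (h2 : ⁅⁅C, A⁆, B⁆ ≤ N) : ⁅⁅A, B⁆, C⁆ ≤ N := by
  have key : ∀ X : Subgroup G, X ≤ N ↔ X.map (QuotientGroup.mk' N) = ⊥ := fun X => by
    rw [Subgroup.map_eq_bot_iff, QuotientGroup.ker_mk']
  rw [key, Subgroup.map_commutator, Subgroup.map_commutator] at h1 h2 ⊢
  exact Subgroup.commutator_commutator_eq_bot_of_rotate h1 h2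

theorem lcs_comm (G : Type*) [Group G] (j : ℕ) : ∀ i,
    ⁅(⊤ : Subgroup G).lowerCentralSeries i, (⊤ : Subgroup G).lowerCentralSeries j⁆ ≤
      (⊤ : Subgroup G).lowerCentralSeries (i + j + 1) := by
  induction j with
  | zero => intro i; exact le_rfl
  | succ j ih =>
    intro i
    rw [Subgroup.commutator_comm, Subgroup.lowerCentralSeries_succ]
    apply three
    · rw [Subgroup.commutator_comm ⊤, ← Subgroup.lowerCentralSeries_succ]
      have := ih (i + 1)
      rwa [show i + 1 + j + 1 = i + (j + 1) + 1 by ring] at this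
    · rw [show i + (j + 1) + 1 = i + j + 1 + 1 by ring, Subgroup.lowerCentralSeries_succ]
      exact Subgroup.commutator_mono (ih i) le_rfl

theorem lcs_ns (G : Type*) [Group G] : NS (lcs G) where
  anti := fun _ _ hab => Subgroup.lowerCentralSeries_antitone _ (Nat.sub_le_sub_right hab 1)
  comm := fun a b x y hx hy => by
    rcases a with _ | a
    · rw [zero_add, commutatorElement_def]
      exact (lcs G b).mul_mem (Subgroup.Normal.conj_mem inferInstance y hy x) ((lcs G b).inv_mem hy)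
    rcases b with _ | b
    · have : ⁅x, y⁆ = x * (y * x⁻¹ * y⁻¹) := by rw [commutatorElement_def]; group
      rw [add_zero, this]
      exact (lcs G _).mul_mem hx
        (Subgroup.Normal.conj_mem inferInstance _ ((lcs G _).inv_mem hx) y)
    have := lcs_comm G b a (Subgroup.commutator_mem_commutator hx hy)
    unfold lcs
    rwa [show a + 1 + (b + 1) - 1 = a + b + 1 by omega]

end Pool.Agent.P.MP_3dfad8_al
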