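import Pool.Agent.P.MP_3dfad8_al.Core

/-! Reduction to the core step, and the choice of the list of directions. -/

namespace Pool.Agent.P.MP_3dfad8_al

open scoped commutatorElement IsMulCommutative

theorem outer (p : ℕ) [hp : Fact p.Prime] (n : ℕ) : ∀ (G : Type) [Group G] [Finite G],
    Nat.card G = n → IsPGroup p G → ∀ (H B : Subgroup G) [B.Normal], H ≤ B →
    (∀ x : G, (∀ g : G, g * x * g⁻¹ ∈ H) → x = 1) →
    (∀ g : G, g ^ p ≠ 1 → ∃ k : G, k * g * k⁻¹ ∈ H) →
    ∀ la : List G, (∀ s : List G, s.Sublist la → s ≠ [] → s.reverse.prod ∉ B) →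
    lcs G (la.length + p + 1) = ⊥ → ∀ g : G, g ^ p = 1 := by
  induction n using Nat.strong_induction_on with
  | _ n ih =>
  intro G _ _ hn hG H B hB hHB hcore hcov la hla hc
  have hout : ∀ x, x ∉ B → x ^ p = 1 := fun x hx => by
    by_contra hne
    obtain ⟨k, hk⟩ := hcov x hne
    have := hB.conj_mem _ (hHB hk) k⁻¹
    exact hx (by simpa [mul_assoc] using this)
  have hz : ∀ x : G, x ^ p ∈ Subgroup.center G → x ^ p = 1 := fun x hz => by
    by_contra hne
    obtain ⟨k, hk⟩ := hcov x hne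
    have h1 := H.pow_mem hk p
    rw [conj_pow, Subgroup.mem_center_iff.mp hz k, mul_inv_cancel_right] at h1
    refine hne (hcore _ fun g => ?_)
    rwa [Subgroup.mem_center_iff.mp hz g, mul_inv_cancel_right]
  rcases subsingleton_or_nontrivial G with _ | _
  · exact fun g => Subsingleton.elim _ _
  obtain ⟨z, hzc, hz1, hzp⟩ : ∃ z ∈ Subgroup.center G, z ≠ 1 ∧ z ^ p = 1 := by
    have := hG.center_nontrivial
    obtain ⟨m, hm0, hm⟩ := (hG.to_subgroup (Subgroup.center G)).nontrivial_iff_card.mp this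
    obtain ⟨z, hz⟩ := exists_prime_orderOf_dvd_card' (G := Subgroup.center G) p
      (hm ▸ dvd_pow_self p hm0.ne')
    refine ⟨z, z.2, fun h => ?_, ?_⟩
    · rw [show z = 1 from Subtype.ext h, orderOf_one] at hz
      exact hp.out.one_lt.ne hz
    · rw [← Subgroup.coe_pow, ← hz, pow_orderOf_eq_one, Subgroup.coe_one]
  have hcz : ∀ (g : G) (i : ℤ), Commute g (z ^ i) := fun g i =>
    Commute.zpow_right (Subgroup.mem_center_iff.mp hzc g) i
  by_cases hzB : z ∉ B
  · intro u
    by_cases hu : u ∈ B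
    · have := hout (u * z) fun h => hzB ((B.mul_mem_cancel_left hu).mp h)
      rwa [Commute.mul_pow (Subgroup.mem_center_iff.mp hzc u), hzp, mul_one] at this
    · exact hout u hu
  rw [not_not] at hzB
  have hzn : (Subgroup.zpowers z).Normal := ⟨fun x hx g => by
    obtain ⟨i, rfl⟩ := Subgroup.mem_zpowers_iff.mp hx
    rwa [(hcz g i).eq, mul_inv_cancel_right]⟩
  obtain ⟨H₁, hH₁, hle, hzH, hmem⟩ : ∃ H₁ : Subgroup G, H₁ ≤ B ∧ H ≤ H₁ ∧
      Subgroup.zpowers z ≤ H₁ ∧ ∀ x ∈ H₁, ∃ h ∈ H, ∃ i : ℤ, x = h * z ^ i := by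
    refine ⟨H ⊔ Subgroup.zpowers z, sup_le hHB ((Subgroup.zpowers_le).mpr hzB), le_sup_left,
      le_sup_right, fun x hx => ?_⟩
    obtain ⟨h, hh, y, hy, rfl⟩ := Subgroup.mem_sup_of_normal_right.mp hx
    obtain ⟨i, rfl⟩ := Subgroup.mem_zpowers_iff.mp hy
    exact ⟨h, hh, i, rfl⟩
  have hKB : H₁.normalCore ≤ B := H₁.normalCore_le.trans hH₁
  have hzK : z ∈ H₁.normalCore :=
    (Subgroup.normal_le_normalCore.mpr hzH) (Subgroup.mem_zpowers z)
  have hKp : ∀ a : H₁.normalCore, a ^ p = 1 := fun a => by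
    refine Subtype.ext (hcore _ fun g => ?_)
    obtain ⟨h, hh, i, hi⟩ := hmem _ (a.2 g)
    rw [Subgroup.coe_pow, ← conj_pow, hi, (hcz h i).mul_pow, ← zpow_natCast (z ^ i), ← zpow_mul,
      mul_comm i, zpow_mul, zpow_natCast, hzp, one_zpow, mul_one]
    exact H.pow_mem hh p
  have hKc : IsMulCommutative H₁.normalCore := ⟨⟨fun a b => Subtype.ext (by
    rw [Subgroup.coe_mul, Subgroup.coe_mul, ← commutatorElement_eq_one_iff_mul_comm]
    refine hcore _ fun g => ?_
    obtain ⟨h, hh, i, hi⟩ := hmem _ (a.2 g)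
    obtain ⟨h', hh', j, hj⟩ := hmem _ (b.2 g)
    have h1 : g * ⁅(a : G), (b : G)⁆ * g⁻¹ = ⁅g * a * g⁻¹, g * b * g⁻¹⁆ := by
      simp only [commutatorElement_def]
      group
    have h2 : ⁅h * z ^ i, h' * z ^ j⁆ = ⁅h, h'⁆ := by
      have e1 : h * z ^ i * (h' * z ^ j) = h * h' * z ^ (i + j) := by
        rw [mul_assoc h, ← mul_assoc (z ^ i), ← (hcz h' i).eq, zpow_add]
        group
      have e2 : h' * z ^ j * (h * z ^ i) = h' * h * z ^ (i + j) := by
        rw [mul_assoc h', ← mul_assoc (z ^ j), ← (hcz h j).eq, add_comm, zpow_add]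
        group
      rw [commutatorElement_def, commutatorElement_def, mul_assoc, ← mul_inv_rev, e1, e2]
      group
    rw [h1, hi, hj, h2, commutatorElement_def]
    exact H.mul_mem (H.mul_mem (H.mul_mem hh hh') (H.inv_mem hh)) (H.inv_mem hh'))⟩⟩
  have hsurj := QuotientGroup.mk'_surjective H₁.normalCore
  have hmap : ∀ (C : Subgroup G), H₁.normalCore ≤ C → ∀ x : G,
      QuotientGroup.mk' H₁.normalCore x ∈ C.map (QuotientGroup.mk' H₁.normalCore) → x ∈ C :=
    fun C hC x hx => by
      have := Subgroup.comap_map_eq_self (f := QuotientGroup.mk' H₁.normalCore) (H := C)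
        (by rwa [QuotientGroup.ker_mk'])
      rw [← this]
      exact hx
  have : (B.map (QuotientGroup.mk' H₁.normalCore)).Normal := hB.map _ hsurj
  have hq := ih (Nat.card (G ⧸ H₁.normalCore)) (by
      rw [← hn, Subgroup.card_eq_card_quotient_mul_card_subgroup H₁.normalCore]
      refine lt_mul_of_one_lt_right Nat.card_pos ?_
      exact Finite.one_lt_card_iff_nontrivial.mpr
        ⟨⟨z, hzK⟩, 1, fun h => hz1 (congrArg Subtype.val h)⟩)
    (G ⧸ H₁.normalCore) rfl (hG.to_quotient _) (H₁.map (QuotientGroup.mk' H₁.normalCore))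
    (B.map (QuotientGroup.mk' H₁.normalCore)) (Subgroup.map_mono hH₁) (fun x hx => by
      obtain ⟨x, rfl⟩ := hsurj x
      rw [QuotientGroup.mk'_apply, QuotientGroup.eq_one_iff]
      intro g
      refine hmap H₁ H₁.normalCore_le _ ?_
      rw [map_mul, map_mul, map_inv]
      exact hx _)
    (fun x hx => by
      obtain ⟨x, rfl⟩ := hsurj x
      obtain ⟨k, hk⟩ := hcov x fun h => hx (by rw [← map_pow, h, map_one])
      refine ⟨QuotientGroup.mk' _ k, ?_⟩
      rw [← map_inv, ← map_mul, ← map_mul]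
      exact Subgroup.mem_map_of_mem _ (hle hk))
    (la.map (QuotientGroup.mk' H₁.normalCore)) (fun s hs hne h => by
      obtain ⟨s, hs', rfl⟩ := List.sublist_map_iff.mp hs
      rw [← List.map_reverse, ← map_list_prod] at h
      exact hla s hs' (fun h0 => hne (by rw [h0, List.map_nil])) (hmap B hKB _ h))
    (by
      have h1 := congrArg (Subgroup.map (QuotientGroup.mk' H₁.normalCore)) hc
      rw [lcs, Subgroup.map_lowerCentralSeries, Subgroup.map_top_of_surjective _ hsurj,
        Subgroup.map_bot] at h1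
      rw [List.length_map]
      exact h1)
  refine core p H₁.normalCore.subtype H₁.normalCore.subtype_injective hKp (fun x => ?_) B hout la
    hla hc hz
  have h1 := hq (QuotientGroup.mk' _ x)
  rw [← map_pow, QuotientGroup.mk'_apply, QuotientGroup.eq_one_iff] at h1
  exact ⟨⟨_, h1⟩, rfl⟩

theorem exists_list {G : Type*} [Group G] [Finite G] (p : ℕ) [hp : Fact p.Prime]
    (hG : IsPGroup p G) (e : ℕ) : ∀ B : Subgroup G, p ^ e ∣ B.index →
    ∃ la : List G, la.length = e * (p - 1) ∧
      ∀ s : List G, s.Sublist la → s ≠ [] → s.reverse.prod ∉ B := by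
  induction e with
  | zero =>
    intro B _
    exact ⟨[], by simp, fun s hs hne => (hne (List.sublist_nil.mp hs)).elim⟩
  | succ e ih =>
    intro B hB
    obtain ⟨m, hm⟩ := IsPGroup.iff_card.mp (hG.to_subgroup B)
    have h1 : p ^ (m + (e + 1)) ∣ Nat.card G := by
      rw [← B.card_mul_index, hm, pow_add]
      exact mul_dvd_mul_left _ hB
    obtain ⟨C, hC, hBC⟩ := Sylow.exists_subgroup_card_pow_succ
      ((pow_dvd_pow p (by omega)).trans h1) hm
    obtain ⟨l, hl, hl'⟩ := ih C (by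
      rw [← C.card_mul_index, hC, show m + (e + 1) = m + 1 + e by ring, pow_add] at h1
      exact (Nat.mul_dvd_mul_iff_left (pow_pos hp.out.pos _)).mp h1)
    obtain ⟨a, haC, haB⟩ : ∃ a ∈ C, a ∉ B := by
      by_contra h
      push Not at h
      have := Subgroup.card_le_of_le (show C ≤ B from h)
      rw [hC, hm] at this
      exact absurd (Nat.pow_lt_pow_right hp.out.one_lt (Nat.lt_succ_self m)) (not_lt.mpr this)
    refine ⟨List.replicate (p - 1) a ++ l, by rw [List.length_append, hl]; simp; ring,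
      fun s hs hne h => ?_⟩
    obtain ⟨s₁, s₂, rfl, h₁, h₂⟩ := List.sublist_append_iff.mp hs
    obtain ⟨i, hi, rfl⟩ := List.sublist_replicate_iff.mp h₁
    rw [List.reverse_append, List.prod_append, List.reverse_replicate, List.prod_replicate] at h
    by_cases h0 : s₂ = []
    · subst h0
      have hi0 : i ≠ 0 := by
        rintro rfl
        exact hne rfl
      obtain ⟨k, hk⟩ := (IsPGroup.iff_orderOf.mp hG) a
      have h3 : a ∈ Subgroup.zpowers (a ^ i) := by
        rw [mem_zpowers_pow_iff, hk]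
        have := hp.out.pos
        exact ((Nat.coprime_of_lt_prime hi0 (by omega) hp.out).symm.pow_right k)
      exact haB ((Subgroup.zpowers_le.mpr (by simpa using h) : _ ≤ B) h3)
    · exact hl' s₂ h₂ h0 ((C.mul_mem_cancel_right (C.pow_mem haC i)).mp (hBC h))

/-- Abstract form of the theorem. -/
theorem exponent_of_class {G : Type} [Group G] [Finite G] {p : ℕ} (hp : p.Prime)
    (hG : IsPGroup p G) (H B : Subgroup G) [B.Normal] (hHB : H ≤ B)
    (hcore : ∀ x : G, (∀ g : G, g * x * g⁻¹ ∈ H) → x = 1)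
    (hcov : ∀ g : G, g ^ p ≠ 1 → ∃ k : G, k * g * k⁻¹ ∈ H) (e : ℕ) (he : p ^ e ∣ B.index)
    (hc : (⊤ : Subgroup G).lowerCentralSeries (max e 1 * (p - 1) + p) = ⊥) (g : G) :
    g ^ p = 1 := by
  have : Fact p.Prime := ⟨hp⟩
  have key : ∀ (C : Subgroup G) [C.Normal], H ≤ C → p ^ max e 1 ∣ C.index → g ^ p = 1 :=
    fun C _ hHC hC => by
      obtain ⟨la, h1, h2⟩ := exists_list p hG _ C hC
      exact outer p _ G rfl hG H C hHC hcore hcov la h2 (by rw [h1]; exact hc) g
  rcases Nat.eq_zero_or_pos e with rfl | he0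
  · rcases eq_top_or_exists_le_coatom H with rfl | ⟨M, hM, hHM⟩
    · exact hcore _ fun _ => Subgroup.mem_top _
    have hnil : Group.IsNilpotent G := hG.isNilpotent
    have hMn : M.Normal := Subgroup.NormalizerCondition.normal_of_coatom M
      Group.normalizerCondition_of_isNilpotent hM
    refine key M hHM ?_
    obtain ⟨k, hk⟩ := hG.index M
    rw [hk]
    refine pow_dvd_pow p (Nat.pos_of_ne_zero ?_)
    rintro rfl
    exact hM.1 (Subgroup.index_eq_one.mp hk)
  · exact key B hHB (by rwa [max_eq_left he0])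

end Pool.Agent.P.MP_3dfad8_al
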