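import Mathlib

/-! Metabelian groups with a proper subgroup outside of which every element has order `p`. -/

namespace Pool.Agent.P.MP_3dfad8_al

open Finset
open scoped commutatorElement IsMulCommutative

theorem prod_range_mul_mod {A : Type*} [CommMonoid A] {p i : ℕ} (hp : 0 < p) (hi : i.Coprime p)
    (f : ℕ → A) : ∏ j ∈ range p, f (j * i % p) = ∏ j ∈ range p, f j := by
  refine Finset.prod_bij (fun j _ => j * i % p) (fun j _ => mem_range.mpr (Nat.mod_lt _ hp)) ?_ ?_
    (fun _ _ => rfl)
  · intro a ha b hb hab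
    have h : a ≡ b [MOD p] := Nat.ModEq.cancel_right_of_coprime hi.symm hab
    exact Nat.ModEq.eq_of_lt_of_lt h (mem_range.mp ha) (mem_range.mp hb)
  · intro b hb
    have hinj : Set.InjOn (fun j => j * i % p) (range p : Set ℕ) := by
      intro a ha b hb hab
      have h : a ≡ b [MOD p] := Nat.ModEq.cancel_right_of_coprime hi.symm hab
      exact Nat.ModEq.eq_of_lt_of_lt h (mem_range.mp ha) (mem_range.mp hb)
    have := Finset.surj_on_of_inj_on_of_card_le (s := range p) (t := range p)
      (fun j _ => j * i % p) (fun j _ => mem_range.mpr (Nat.mod_lt _ hp))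
      (fun a b ha hb hab => hinj ha hb hab) le_rfl b hb
    obtain ⟨a, ha, hab⟩ := this
    exact ⟨a, ha, hab.symm⟩

/-- The norm identity in an abelian group acted on by two commuting automorphisms of order `p`. -/
theorem norm_identity {A : Type*} [CommGroup A] {p : ℕ} (hp : p.Prime) (X Y : MulAut A)
    (hXY : Commute X Y) (hX : X ^ p = 1)
    (h : ∀ j : ℕ, ∀ a : A, ∏ i ∈ range p, ((X ^ j * Y) ^ i) a = 1) (a : A) :
    ∏ i ∈ range p, (X ^ i) a = a ^ p := by
  set b : A := ∏ i ∈ range p, (X ^ i) a with hb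
  have h1 : ∏ j ∈ range p, ∏ i ∈ range p, ((X ^ j * Y) ^ i) a = 1 :=
    prod_eq_one fun j _ => h j a
  rw [prod_comm] at h1
  have h2 : ∀ i ∈ range p, ∏ j ∈ range p, ((X ^ j * Y) ^ i) a =
      if i = 0 then a ^ p else (Y ^ i) b := by
    intro i hi
    split_ifs with h0
    · simp [h0]
    · have hcop : i.Coprime p :=
        (Nat.coprime_of_lt_prime h0 (mem_range.mp hi) hp).symm
      rw [hb, map_prod, ← prod_range_mul_mod hp.pos hcop fun j => (Y ^ i) ((X ^ j) a)]
      refine prod_congr rfl fun j _ => ?_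
      rw [(hXY.pow_left j).mul_pow, ← pow_mul, (hXY.pow_pow (j * i) i).eq, MulAut.mul_apply,
        ← pow_eq_pow_mod _ hX]
  rw [prod_congr rfl h2] at h1
  have h3 : ∏ i ∈ range p, (Y ^ i) b = 1 := by simpa using h 0 b
  obtain ⟨q, rfl⟩ : ∃ q, p = q + 1 := ⟨p - 1, (Nat.succ_pred_eq_of_pos hp.pos).symm⟩
  rw [prod_range_succ'] at h1 h3
  simp only [Nat.succ_ne_zero, if_false, if_true, pow_zero, MulAut.one_apply] at h1 h3
  exact mul_left_cancel (h3.trans h1.symm)

theorem mul_pow_eq {G : Type*} [Group G] (A : Subgroup G) [A.Normal] [IsMulCommutative A]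
    (a : A) (g : G) (n : ℕ) :
    ((a : G) * g) ^ n =
      ((∏ i ∈ range n, ((MulAut.conjNormal g : MulAut A) ^ i) a : A) : G) * g ^ n := by
  induction n with
  | zero => simp
  | succ n ih =>
    rw [pow_succ, ih, prod_range_succ, ← map_pow, Subgroup.coe_mul, MulAut.conjNormal_apply,
      pow_succ]
    group

/-- If `G` is metabelian and all elements outside a proper subgroup `M ⊇ G'` have order dividing
`p`, then `(a x) ^ p = a ^ p x ^ p` for `a ∈ G'` and `x ∈ M`. -/
theorem pow_mul_of_metabelian {G : Type*} [Group G] {p : ℕ} (hp : p.Prime)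
    (hab : ∀ a ∈ commutator G, ∀ b ∈ commutator G, a * b = b * a)
    (M : Subgroup G) (hM : M ≠ ⊤) (hAM : commutator G ≤ M) (hout : ∀ g, g ∉ M → g ^ p = 1)
    (a : G) (ha : a ∈ commutator G) (x : G) (hx : x ∈ M) : (a * x) ^ p = a ^ p * x ^ p := by
  have : IsMulCommutative (commutator G) :=
    ⟨⟨fun a b => Subtype.ext (hab a a.2 b b.2)⟩⟩
  obtain ⟨y, hy⟩ : ∃ y, y ∉ M := by
    by_contra h
    push Not at h
    exact hM (eq_top_iff.mpr fun y _ => h y)
  set ρ : G →* MulAut (commutator G) := MulAut.conjNormal with hρ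
  have hcomm : ∀ g h : G, Commute (ρ g) (ρ h) := by
    intro g h
    rw [← commutatorElement_eq_one_iff_commute, ← map_commutatorElement]
    ext b
    have := hab _ (Subgroup.commutator_mem_commutator (Subgroup.mem_top g) (Subgroup.mem_top h))
      b b.2
    rw [hρ, MulAut.conjNormal_apply, this, mul_inv_cancel_right]
    rfl
  have hN : ∀ g, g ∉ M → ∀ b : commutator G, ∏ i ∈ range p, ((ρ g) ^ i) b = 1 := by
    intro g hg b
    have h1 := mul_pow_eq (commutator G) b g p
    rw [hout g hg, hout ((b : G) * g) (fun h => hg ((M.mul_mem_cancel_left (hAM b.2)).mp h)),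
      mul_one] at h1
    exact Subtype.ext h1.symm
  have hxy : ∀ j : ℕ, x ^ j * y ∉ M :=
    fun j h => hy ((M.mul_mem_cancel_left (M.pow_mem hx j)).mp h)
  have hX : ρ x ^ p = 1 := by
    have h1 : (ρ x * ρ y) ^ p = 1 := by
      rw [← map_mul, ← map_pow, hout _ (by simpa using hxy 1), map_one]
    rw [(hcomm x y).mul_pow, ← map_pow ρ y, hout y hy, map_one, mul_one] at h1
    exact h1
  have := norm_identity hp (ρ x) (ρ y) (hcomm x y) hX
    (fun j b => by rw [← map_pow, ← map_mul]; exact hN _ (hxy j) b) ⟨a, ha⟩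
  have h1 := mul_pow_eq (commutator G) ⟨a, ha⟩ x p
  rw [this] at h1
  simpa using h1

/-- Abstract form of the theorem. -/
theorem exponent_of_metabelian {G : Type*} [Group G] [Finite G] {p : ℕ} (hp : p.Prime)
    (hG : IsPGroup p G) (hab : ∀ a ∈ commutator G, ∀ b ∈ commutator G, a * b = b * a)
    (H : Subgroup G) (hcore : ∀ z ∈ H, z ∈ Subgroup.center G → z = 1)
    (hcov : ∀ g : G, g ^ p ≠ 1 → ∃ k : G, k * g * k⁻¹ ∈ H) (g : G) : g ^ p = 1 := by
  have : Fact p.Prime := ⟨hp⟩
  have hnil : Group.IsNilpotent G := hG.isNilpotent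
  have hcentral : ∀ x : G, x ^ p ∈ Subgroup.center G → x ^ p = 1 := by
    intro x hz
    by_contra hne
    obtain ⟨k, hk⟩ := hcov x hne
    have h1 := H.pow_mem hk p
    rw [conj_pow, Subgroup.mem_center_iff.mp hz k, mul_inv_cancel_right] at h1
    exact hne (hcore _ h1 hz)
  obtain ⟨n, hn⟩ := Subgroup.nilpotent_iff_lowerCentralSeries.mp hnil
  have key : (∀ a ∈ commutator G, ∀ x : G, a ^ p = 1 → (a * x) ^ p = x ^ p) →
      ∀ g : G, g ^ p = 1 := by
    intro hP
    have step : ∀ c : ℕ, (∀ x ∈ (⊤ : Subgroup G).lowerCentralSeries (c + 1), x ^ p = 1) →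
        ∀ x ∈ (⊤ : Subgroup G).lowerCentralSeries c, x ^ p = 1 := by
      intro c ih x hx
      apply hcentral
      rw [Subgroup.mem_center_iff]
      intro k
      have hc : ⁅k, x⁆ ∈ (⊤ : Subgroup G).lowerCentralSeries (c + 1) := by
        have : ⁅x, k⁆ ∈ (⊤ : Subgroup G).lowerCentralSeries (c + 1) :=
          Subgroup.commutator_mem_commutator hx (Subgroup.mem_top k)
        rw [← commutatorElement_inv]
        exact Subgroup.inv_mem _ this
      have h1 := hP _ (Subgroup.commutator_mem_commutator (Subgroup.mem_top k)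
        (Subgroup.mem_top x)) x (ih _ hc)
      have h2 : ⁅k, x⁆ * x = k * x * k⁻¹ := by
        rw [commutatorElement_def]
        group
      rw [h2, conj_pow] at h1
      exact mul_inv_eq_iff_eq_mul.mp h1
    have all : ∀ c : ℕ, c ≤ n → ∀ x ∈ (⊤ : Subgroup G).lowerCentralSeries c, x ^ p = 1 := by
      intro c hc
      induction hc using Nat.decreasingInduction with
      | self =>
        intro x hx
        rw [hn, Subgroup.mem_bot] at hx
        rw [hx, one_pow]
      | of_succ c _ ih => exact step c ih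
    exact fun g => all 0 (Nat.zero_le n) g (Subgroup.mem_top g)
  rcases eq_top_or_exists_le_coatom H with rfl | ⟨M, hM, hHM⟩
  · have htriv : ∀ c : ℕ, c ≤ n → ∀ x ∈ (⊤ : Subgroup G).lowerCentralSeries c, x = 1 := by
      intro c hc
      induction hc using Nat.decreasingInduction with
      | self =>
        intro x hx
        rwa [hn, Subgroup.mem_bot] at hx
      | of_succ c _ ih =>
        intro x hx
        refine hcore x (Subgroup.mem_top x) (Subgroup.mem_center_iff.mpr fun k => ?_)
        exact (commutatorElement_eq_one_iff_mul_comm.mp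
          (ih _ (Subgroup.commutator_mem_commutator hx (Subgroup.mem_top k)))).symm
    rw [htriv 0 (Nat.zero_le n) g (Subgroup.mem_top g), one_pow]
  have hMn : M.Normal := Subgroup.NormalizerCondition.normal_of_coatom M
    Group.normalizerCondition_of_isNilpotent hM
  have hAM : commutator G ≤ M := by
    by_contra hle
    have htop : M ⊔ commutator G = ⊤ := hM.2 _ (left_lt_sup.mpr hle)
    have : Nontrivial (G ⧸ M) := QuotientGroup.nontrivial_iff.mpr hM.1
    have hlt := Group.IsSolvable.commutator_lt_top_of_nontrivial (G ⧸ M)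
    have hmap := congrArg (Subgroup.map (QuotientGroup.mk' M)) htop
    rw [Subgroup.map_sup, QuotientGroup.map_mk'_self, bot_sup_eq, map_commutator_eq,
      Subgroup.map_top_of_surjective _ (QuotientGroup.mk'_surjective M),
      MonoidHom.range_eq_top_of_surjective _ (QuotientGroup.mk'_surjective M)] at hmap
    exact hlt.ne hmap
  have hout : ∀ g, g ∉ M → g ^ p = 1 := by
    intro g hg
    by_contra hne
    obtain ⟨k, hk⟩ := hcov g hne
    have := hMn.conj_mem _ (hHM hk) k⁻¹
    exact hg (by simpa [mul_assoc] using this)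
  refine key (fun a ha x hap => ?_) g
  by_cases hx : x ∈ M
  · rw [pow_mul_of_metabelian hp hab M hM.1 hAM hout a ha x hx, hap, one_mul]
  · rw [hout x hx, hout _ fun h => hx ((M.mul_mem_cancel_left (hAM ha)).mp h)]

end Pool.Agent.P.MP_3dfad8_al
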